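import Pool.Agent.NH73.LD.Gap

/-!
# Margulis' injectivity radius conjecture over fields with large root discriminant

`Pool.Agent.H225R3.MargDefs` contains the definitions: `Realization ρ Γ k n S` (a homomorphism `r`
from `Γ` to the `n` by `n` matrices over the ring of integers of the number field `k`, bounded under
all embeddings outside `S`, such that for `σ` in `S` the eigenvalues of `σ (r γ)` are eigenvalues of
`ρ γ`, and such that only `1` is mapped to a unipotent matrix) and `UniformlyDiscrete` (there is an
identity neighbourhood `U` such that `g U g⁻¹` meets every group of the family in the identity only).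

`Pool.Agent.NH73.LD.Main` and `Pool.Agent.NH73.LD.Gap` contain the definitions used here.
`coeffField A` is the subfield of `k` generated by the coefficients of the characteristic polynomial
of the matrix `A`. `Expanding S F`: the subfield `F` of `k` has a complex embedding all of whose
extensions to `k` belong to the set `S` of noncompact embeddings; then `[k : F] ≤ |S|`, and for
`|S| = 1` only `F = k` is possible. `LargeDiscriminants c N k S`: every expanding subfield `F` of
`k`, of degree `D`, has `D ≤ N` or `|disc F| ≥ (c D) ^ D`, i.e. its root discriminant is at least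
`c D`.

Method. Let `A = r γ`, let `F` be the field generated by the coefficients of the characteristic
polynomial of `A` and let `D` be its degree. The eigenvalues of `A` need not be in `F`, but the
symmetrized monomials of the eigenvalues, with exponents less than `D`, are integers of `F`. They
generate `F` as a vector space over `ℚ`: a product of values of the characteristic polynomial separates the
embeddings of `F`, and its expansion is a combination of these monomials. The determinant of a
basis is estimated by the inequality of Hadamard, as in the inequality of Mahler between the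
discriminant and the measure of a polynomial. All eigenvalues have absolute value one except under
the embeddings of `F` all of whose extensions are in `S`.
-/

set_option autoImplicit false

namespace Pool.Agent.Results.MP_162bbe_gt.LargeDiscriminants

open NumberField Module Pool.Agent.H225R3.Marg Pool.Agent.R826.Frob Pool.Agent.NH73.LD

universe u

/-- The torsion-free subgroups `Γ` of `G` which have a realization by matrices of size `n` over a
number field `k` with set of noncompact embeddings `S`, such that `|S| ≤ s` and each subfield of `k`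
having an embedding all of whose extensions to `k` are in `S` has degree `D ≤ N` or a discriminant of
absolute value at least `(c D) ^ D`. -/
def Family (c : ℝ) (N s n : ℕ) {G : Type*} [Group G] {M : ℕ}
    (ρ : G →* Matrix (Fin M) (Fin M) ℂ) : Set (Subgroup G) :=
  {Γ | (∀ γ ∈ Γ, ∀ N : ℕ, 0 < N → γ ^ N = 1 → γ = 1) ∧
    ∃ (k : Type) (_ : Field k) (_ : NumberField k) (S : Finset (k →+* ℂ))
      (_ : Realization ρ Γ k n S), S.card ≤ s ∧ LargeDiscriminants c N k S}

/-- The torsion-free subgroups `Γ` of `G` which have a realization by matrices of size `n` over a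
number field `k` of degree `d`, with exactly one noncompact embedding, such that `d ≤ N` or the
absolute value of the discriminant of `k` is at least `(c d) ^ d`. -/
def FamilyOne (c : ℝ) (N n : ℕ) {G : Type*} [Group G] {M : ℕ}
    (ρ : G →* Matrix (Fin M) (Fin M) ℂ) : Set (Subgroup G) :=
  {Γ | (∀ γ ∈ Γ, ∀ N : ℕ, 0 < N → γ ^ N = 1 → γ = 1) ∧
    ∃ (k : Type) (_ : Field k) (_ : NumberField k) (S : Finset (k →+* ℂ))
      (_ : Realization ρ Γ k n S), S.card = 1 ∧
      (finrank ℚ k ≤ N ∨ (c * finrank ℚ k) ^ finrank ℚ k ≤ |(discr k : ℝ)|)}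

/-- The inequality between the subfield `F` of `k` and the element `γ`: the field `F` has an embedding
all of whose extensions to `k` are in `S`, so that `[k : F] ≤ |S|`, and `ρ γ` has an eigenvalue `l` with
`|l| > 1` such that `|disc F| ≤ ((n!) ^ 2 D) ^ D |l| ^ (2 n m (D - 1))`, where `D = [F : ℚ]` and `m` is
the integral part of `|S| / [k : F]`. Hence if the root discriminant of `F` is at least `c D`,
`c > (n!) ^ 2`, then `|l| ^ (2 n m) ≥ c / (n!) ^ 2`. -/
def DiscriminantBound {G : Type*} [Group G] {M : ℕ} (ρ : G →* Matrix (Fin M) (Fin M) ℂ) (γ : G)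
    (n : ℕ) {k : Type} [Field k] [NumberField k] (S : Finset (k →+* ℂ))
    (F : IntermediateField ℚ k) : Prop :=
  Expanding S F ∧ finrank F k ≤ S.card ∧ ∃ l : ℂ, IsEig (ρ γ) l ∧ 1 < ‖l‖ ∧
    |(discr F : ℝ)| ≤ ((n.factorial : ℝ) ^ 2 * finrank ℚ F) ^ finrank ℚ F *
      ‖l‖ ^ (2 * n * (S.card / finrank F k) * (finrank ℚ F - 1)) ∧
    ∀ c : ℝ, (n.factorial : ℝ) ^ 2 < c → (c * finrank ℚ F) ^ finrank ℚ F ≤ |(discr F : ℝ)| →
      c / (n.factorial : ℝ) ^ 2 ≤ ‖l‖ ^ (2 * n * (S.card / finrank F k))

/-- Let `G` be a group and `ρ` a finite dimensional complex representation of `G`, continuous if `G`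
is a topological group (for instance the complexified adjoint representation of a semisimple Lie
group).

(1) Let the subgroup `Γ` of `G` have a realization by matrices of size `n` over the number field `k`
with set of noncompact embeddings `S`, and let `γ` be an element of `Γ` of infinite order. Let `F` be
the subfield of `k` generated by the coefficients of the characteristic polynomial of `r γ`, and `D`
its degree. Then the inequality `DiscriminantBound` holds: `F` has an embedding all of whose
extensions to `k` are in `S`, `[k : F] ≤ |S|`, and `ρ γ` has an eigenvalue `l` with `|l| > 1` and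
`|disc F| ≤ ((n!) ^ 2 D) ^ D |l| ^ (2 n m (D - 1))`, where `m` is the integral part of
`|S| / [k : F]`.

(2) If `c > (n!) ^ 2`, then there is a number `E`, which only depends on `c`, `N`, `s` and `n`, such
that if `|S| ≤ s` and `LargeDiscriminants c N k S`, then each element `γ` of `Γ` of infinite order
has an eigenvalue `l` (of `ρ γ`) with `|l| ^ E ≥ 2`, and the family `Family c N s n ρ` is uniformly
discrete.

(3) If `c > (n!) ^ 2`, then the family `FamilyOne c N n ρ` of torsion-free subgroups with a
realization of size `n` over a field `k` with one noncompact embedding and root discriminant at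
least `c [k : ℚ]` (or degree at most `N`) is uniformly discrete. -/
theorem result :
    (∀ (G : Type u) [Group G] (M : ℕ) (ρ : G →* Matrix (Fin M) (Fin M) ℂ) (Γ : Subgroup G)
      (k : Type) [Field k] [NumberField k] (n : ℕ) (S : Finset (k →+* ℂ))
      (R : Realization ρ Γ k n S) (γ : Γ), (∀ N : ℕ, 0 < N → γ ^ N ≠ 1) →
      DiscriminantBound ρ (γ : G) n S (coeffField (R.r γ))) ∧
    (∀ (c : ℝ) (N s n : ℕ), (n.factorial : ℝ) ^ 2 < c → ∃ E : ℕ, ∀ (G : Type u) [Group G] (M : ℕ)
      (ρ : G →* Matrix (Fin M) (Fin M) ℂ),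
      (∀ [TopologicalSpace G], Continuous ρ → UniformlyDiscrete (Family c N s n ρ)) ∧
      ∀ (Γ : Subgroup G) (k : Type) [Field k] [NumberField k] (S : Finset (k →+* ℂ)),
        Realization ρ Γ k n S → S.card ≤ s → LargeDiscriminants c N k S →
        ∀ γ ∈ Γ, (∀ N : ℕ, 0 < N → γ ^ N ≠ 1) → ∃ l : ℂ, IsEig (ρ γ) l ∧ 2 ≤ ‖l‖ ^ E) ∧
    ∀ (c : ℝ) (N n : ℕ), (n.factorial : ℝ) ^ 2 < c → ∀ (G : Type u) [Group G]
      [TopologicalSpace G] (M : ℕ) (ρ : G →* Matrix (Fin M) (Fin M) ℂ), Continuous ρ →
      UniformlyDiscrete (FamilyOne c N n ρ) := by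
  have ud : ∀ (c : ℝ) (N s n : ℕ), (n.factorial : ℝ) ^ 2 < c → ∀ (G : Type u) [Group G]
      [TopologicalSpace G] (M : ℕ) (ρ : G →* Matrix (Fin M) (Fin M) ℂ), Continuous ρ →
      UniformlyDiscrete (Family c N s n ρ) := by
    intro c N s n hc G _ _ M ρ hρ
    obtain ⟨E, hE, h⟩ := gapE c N s n hc
    obtain ⟨δ, hδ, heps⟩ := eps_of E hE
    refine ⟨_, nhd ρ hρ δ hδ, ?_⟩
    rintro Γ ⟨htf, k, _, _, S, R, hs, hk⟩ g u hu hΓ
    refine final_step' R htf δ hδ g u hu hΓ fun hnil => ?_
    have hunit : IsUnit (R.r ⟨g * u * g⁻¹, hΓ⟩) :=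
      (Group.isUnit (⟨g * u * g⁻¹, hΓ⟩ : Γ)).map R.r
    obtain ⟨σ, hσ, l, hl, hle⟩ := h k S _ hs hk hunit
      (fun σ hσ l hl => R.comp' _ σ hσ l hl) hnil
    refine ⟨σ, hσ, l, hl, heps 1 1 l one_pos le_rfl ?_⟩
    rw [pow_one, mul_one]
    exact hle
  refine ⟨?_, ?_, ?_⟩
  · intro G _ M ρ Γ k _ _ n S R γ hinf
    have hunit : IsUnit (R.r γ) := (Group.isUnit γ).map R.r
    obtain ⟨hexp, σ, hσ, l, hl, hl1, hle⟩ := gap S (R.r γ) hunit
      (fun σ hσ l hl => R.comp' _ σ hσ l hl) (by
        intro N hN hnl
        rw [← map_pow] at hnl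
        exact hinf N hN (R.unipotent _ hnl))
    refine ⟨hexp, expanding_le S _ hexp, l, R.eig σ hσ γ l hl, hl1, hle, ?_⟩
    intro c hc hdisc
    have hfac : (1 : ℝ) ≤ (n.factorial : ℝ) ^ 2 := by
      have : 1 ≤ n.factorial := Nat.factorial_pos n
      exact one_le_pow₀ (by exact_mod_cast this)
    exact lower hfac hl1.le hc finrank_pos (hdisc.trans hle)
  · intro c N s n hc
    obtain ⟨E, hE, h⟩ := gapE c N s n hc
    refine ⟨E, fun G _ M ρ => ⟨?_, ?_⟩⟩
    · intro _ hρ
      exact ud c N s n hc G M ρ hρ
    · intro Γ k _ _ S R hs hk γ hγ hinf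
      have hunit : IsUnit (R.r ⟨γ, hγ⟩) := (Group.isUnit (⟨γ, hγ⟩ : Γ)).map R.r
      obtain ⟨σ, hσ, l, hl, hle⟩ := h k S _ hs hk hunit
        (fun σ hσ l hl => R.comp' _ σ hσ l hl) (by
          intro N hN hnl
          rw [← map_pow] at hnl
          exact hinf N hN (congrArg Subtype.val (R.unipotent _ hnl)))
      exact ⟨l, R.eig σ hσ ⟨γ, hγ⟩ l hl, hle⟩
  · intro c N n hc G _ _ M ρ hρ
    obtain ⟨U, hU, h1⟩ := ud c N 1 n hc G M ρ hρ
    refine ⟨U, hU, ?_⟩
    rintro Γ ⟨htf, k, i1, i2, S, R, hS, hk⟩
    exact h1 Γ ⟨htf, k, i1, i2, S, R, hS.le, large_one c N k S hS hk⟩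

end Pool.Agent.Results.MP_162bbe_gt.LargeDiscriminants
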