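import Pool.Agent.NH73.EN.Lev

/-!
# Margulis' injectivity radius conjecture: ideals dividing polynomials in the elements

`Pool.Agent.H225R3.MargDefs` contains the definitions: `Realization ρ Γ k n S` (a homomorphism `r`
from `Γ` to the `n` by `n` matrices over the ring of integers of the number field `k`, bounded under
all embeddings outside `S`, such that for `σ` in `S` the eigenvalues of `σ (r γ)` are eigenvalues of
`ρ γ`, and such that only `1` is mapped to a unipotent matrix) and `UniformlyDiscrete` (there is an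
identity neighbourhood `U` such that `g U g⁻¹` meets every group of the family in the identity only).

`Pool.Agent.NH73.EN` contains the definition `SmallPrimes q b k`: there are a prime number `p ≤ q`, a
number `a ≥ 1` and a set of prime ideals `P` of `k` of norm at most `q`, with multiplicities `c P ≤ a`
such that `p ∈ P ^ c P` (so `c P` is at most the ramification index of `P` over `p`), and
`(∑ c P) ^ 2 ≥ b d max (a, log (2 d))`, where `d = [k : ℚ]`. For instance:

* `a = 1`: there are at least `(b d log (2 d)) ^ (1 / 2)` prime ideals of norm at most `q` above the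
  same prime number `p`. (The starting result `CongruenceLevels` needs `b d ^ (1 / 2 + η)`.)
* `a = d`: the sum of the ramification indices of the prime ideals of norm at most `q` above `p` is at
  least `b ^ (1 / 2) d`. (This contains the starting result `BoundedResidueDegrees`.)
* `t` prime ideals of norm at most `q` above `p`, all with ramification index at least `a`, where
  `(t a) ^ 2 ≥ b d max (a, log (2 d))`; here `t a / d`, the proportion of the degree that is used, can
  be as small as `(b a / d) ^ (1 / 2)`.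

Method. Let `x` be an eigenvalue of `r γ` which is not a root of unity, and `y` a power of `x`. Let
`G` be a monic integral polynomial of degree `r` with `G (y)` in the ideal `I`, and let `N` be a positive
integer in `I`. The polynomials `X ^ i G ^ j` with `i < r` are a basis of `ℤ[X]`, and the elements
`N ^ (m - j) y ^ i G (y) ^ j` of `ℚ (y)` are in `I ^ m`. So their determinant over all
the embeddings, which is a power of `N` times the Vandermonde determinant of the conjugates of `y`, is
at least `N (I) ^ m`. The best choice of `m` gives a lower bound for the discriminant of `y`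
(an `energy` of its conjugates at the primes dividing `I`), and this is compared with the upper bound
given by the inequality of Hadamard. For prime ideals of small norm one takes
`G = X ^ (p ^ w) - X` and `y = x ^ (p ^ j)`, where `p ^ j` is about `a`: then `G (y)` is divisible by `P ^ c P`.
-/

set_option autoImplicit false

namespace Pool.Agent.Results.MP_162bbe_gt.ManySmallPrimes

open NumberField Module Pool.Agent.H225R3.Marg Pool.Agent.R826.Frob Pool.Agent.NH73.EN Polynomial

universe u

/-- The torsion-free subgroups `Γ` of `G` which have a realization by matrices of size `n`, with at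
most `s` noncompact embeddings, over a number field `k` with `SmallPrimes q b k`. -/
def Family (q : ℕ) (b : ℝ) (s n : ℕ) {G : Type*} [Group G] {M : ℕ}
    (ρ : G →* Matrix (Fin M) (Fin M) ℂ) : Set (Subgroup G) :=
  {Γ | (∀ γ ∈ Γ, ∀ N : ℕ, 0 < N → γ ^ N = 1 → γ = 1) ∧
    ∃ (k : Type) (_ : Field k) (_ : NumberField k) (S : Finset (k →+* ℂ))
      (_ : Realization ρ Γ k n S), S.card ≤ s ∧ SmallPrimes q b k}

/-- For some ideal `I` of `k`, some positive integer `N ≤ N₀` in `I` and some exponent `e` with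
`1 ≤ e ≤ e₀`, the `e`-th power of `A` is congruent to `1` modulo `I`, and
`log (N (I)) ≥ (b d log (2 d)) ^ (1 / 2)`, where `d` is the degree of `k`. -/
def HasLevel (N₀ e₀ : ℕ) (b : ℝ) {k : Type} [Field k] [NumberField k] {n : ℕ}
    (A : Matrix (Fin n) (Fin n) (𝓞 k)) : Prop :=
  ∃ (N e : ℕ) (I : Ideal (𝓞 k)), 0 < N ∧ N ≤ N₀ ∧ 0 < e ∧ e ≤ e₀ ∧ (N : 𝓞 k) ∈ I ∧
    (∀ i j, (A ^ e - 1) i j ∈ I) ∧
    b * finrank ℚ k * Real.log (2 * finrank ℚ k) ≤ Real.log (Ideal.absNorm I) ^ 2

/-- The torsion-free subgroups `Γ` of `G` which have a realization by matrices of size `n`, with at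
most `s` noncompact embeddings, such that `HasLevel N₀ e₀ b` for each matrix. -/
def LevelFamily (N₀ e₀ : ℕ) (b : ℝ) (s n : ℕ) {G : Type*} [Group G] {M : ℕ}
    (ρ : G →* Matrix (Fin M) (Fin M) ℂ) : Set (Subgroup G) :=
  {Γ | (∀ γ ∈ Γ, ∀ N : ℕ, 0 < N → γ ^ N = 1 → γ = 1) ∧
    ∃ (k : Type) (_ : Field k) (_ : NumberField k) (S : Finset (k →+* ℂ))
      (R : Realization ρ Γ k n S), S.card ≤ s ∧ ∀ γ : Γ, HasLevel N₀ e₀ b (R.r γ)}

/-- The inequality for the matrix `A = r γ` of size `n` over the number field `k` of degree `d` with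
set of noncompact embeddings `S`: there is an eigenvalue `l` of `ρ γ`, `|l| > 1`, such that for
each monic polynomial `g` with integral coefficients, of degree `r ≥ 1`, each `t ≥ 1`, each ideal `I`
of `k` such that all the entries of `g (A ^ t)` are in `I`, and each positive integer `N` in `I`,
`(log N(I)) ^ 2 ≤ 4 |S| ^ 2 r log N (n d log (n d) + 2 n ^ 2 d |S| t log |l| + r log N)`. -/
def EnergyBound {G : Type*} [Group G] {M : ℕ} (ρ : G →* Matrix (Fin M) (Fin M) ℂ) (γ : G) {n : ℕ}
    {k : Type} [Field k] [NumberField k] (S : Finset (k →+* ℂ))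
    (A : Matrix (Fin n) (Fin n) (𝓞 k)) : Prop :=
  ∃ l : ℂ, IsEig (ρ γ) l ∧ 1 < ‖l‖ ∧
    ∀ (g : ℤ[X]) (t : ℕ) (I : Ideal (𝓞 k)) (N : ℕ), g.Monic → 0 < g.natDegree → 0 < t → I ≠ ⊥ →
      1 ≤ N → (N : 𝓞 k) ∈ I → (∀ i j, (aeval (A ^ t) g) i j ∈ I) →
      Real.log (Ideal.absNorm I) ^ 2 ≤ 4 * (S.card : ℝ) ^ 2 * g.natDegree * Real.log N *
        (n * finrank ℚ k * Real.log (n * finrank ℚ k) +
          2 * n ^ 2 * finrank ℚ k * S.card * t * Real.log ‖l‖ + g.natDegree * Real.log N)

/-- Let `G` be a group and `ρ` a finite dimensional complex representation of `G`, continuous if `G`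
is a topological group (for instance the complexified adjoint representation of a semisimple Lie
group).

(1) Let the subgroup `Γ` of `G` have a realization by matrices of size `n` over the number field `k`
with set of noncompact embeddings `S`, and let `γ` be an element of `Γ` of infinite order. Then the
inequality `EnergyBound` holds.

(2) For all `q`, `s`, `n` and `b > 0` there is a number `E` such that if `|S| ≤ s` and
`SmallPrimes q b k`, then each element `γ` of `Γ` of infinite order has an eigenvalue `l` (of `ρ γ`)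
with `|l| ^ E ≥ 2`, and the family `Family q b s n ρ` is uniformly discrete. There is no condition on
`Γ`.

(3) For all `N₀`, `e₀`, `s`, `n` and `b > 0` there is a number `E` such that if `|S| ≤ s`, then each
element `γ` of `Γ` of infinite order with `HasLevel N₀ e₀ b (r γ)` has an eigenvalue `l` (of `ρ γ`) with
`|l| ^ E ≥ 2`, and the family `LevelFamily N₀ e₀ b s n ρ` is uniformly discrete. -/
theorem result :
    (∀ (G : Type u) [Group G] (M : ℕ) (ρ : G →* Matrix (Fin M) (Fin M) ℂ) (Γ : Subgroup G)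
      (k : Type) [Field k] [NumberField k] (n : ℕ) (S : Finset (k →+* ℂ))
      (R : Realization ρ Γ k n S) (γ : Γ), (∀ N : ℕ, 0 < N → γ ^ N ≠ 1) →
      EnergyBound ρ (γ : G) S (R.r γ)) ∧
    (∀ (q s n : ℕ) (b : ℝ), 0 < b → ∃ E : ℕ, ∀ (G : Type u) [Group G] (M : ℕ)
      (ρ : G →* Matrix (Fin M) (Fin M) ℂ),
      (∀ [TopologicalSpace G], Continuous ρ → UniformlyDiscrete (Family q b s n ρ)) ∧
      ∀ (Γ : Subgroup G) (k : Type) [Field k] [NumberField k] (S : Finset (k →+* ℂ)),
        Realization ρ Γ k n S → S.card ≤ s → SmallPrimes q b k →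
        ∀ γ ∈ Γ, (∀ N : ℕ, 0 < N → γ ^ N ≠ 1) → ∃ l : ℂ, IsEig (ρ γ) l ∧ 2 ≤ ‖l‖ ^ E) ∧
    ∀ (N₀ e₀ s n : ℕ) (b : ℝ), 0 < b → ∃ E : ℕ, ∀ (G : Type u) [Group G] (M : ℕ)
      (ρ : G →* Matrix (Fin M) (Fin M) ℂ),
      (∀ [TopologicalSpace G], Continuous ρ → UniformlyDiscrete (LevelFamily N₀ e₀ b s n ρ)) ∧
      ∀ (Γ : Subgroup G) (k : Type) [Field k] [NumberField k] (S : Finset (k →+* ℂ))
        (R : Realization ρ Γ k n S), S.card ≤ s → ∀ γ : Γ, HasLevel N₀ e₀ b (R.r γ) →
        (∀ N : ℕ, 0 < N → γ ^ N ≠ 1) → ∃ l : ℂ, IsEig (ρ γ) l ∧ 2 ≤ ‖l‖ ^ E := by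
  refine ⟨?_, ?_, ?_⟩
  · intro G _ M ρ Γ k _ _ n S R γ hinf
    have hunit : IsUnit (R.r γ) := (Group.isUnit γ).map R.r
    obtain ⟨σ, hσ, l, hl, hl1, h⟩ := bound k n S (R.r γ) hunit
      (fun σ hσ l hl => R.comp' _ σ hσ l hl) (by
        intro N hN hnl
        rw [← map_pow] at hnl
        exact hinf N hN (R.unipotent _ hnl))
    exact ⟨l, R.eig σ hσ γ l hl, hl1, h⟩
  · intro q s n b hb
    obtain ⟨E, hE, h⟩ := uni q n s b hb
    refine ⟨E, fun G _ M ρ => ⟨?_, ?_⟩⟩
    · intro _ hρ
      obtain ⟨δ, hδ, heps⟩ := eps_of E hE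
      refine ⟨_, nhd ρ hρ δ hδ, ?_⟩
      rintro Γ ⟨htf, k, _, _, S, R, hs, hk⟩ g u hu hΓ
      refine final_step' R htf δ hδ g u hu hΓ fun hnil => ?_
      have hunit : IsUnit (R.r ⟨g * u * g⁻¹, hΓ⟩) :=
        (Group.isUnit (⟨g * u * g⁻¹, hΓ⟩ : Γ)).map R.r
      obtain ⟨σ, hσ, l, hl, hle⟩ := h k S _ hs hk hunit
        (fun σ hσ l hl => R.comp' _ σ hσ l hl) hnil
      refine ⟨σ, hσ, l, hl, heps 1 1 l one_pos le_rfl ?_⟩
      rw [pow_one, mul_one]
      exact hle
    · intro Γ k _ _ S R hs hk γ hγ hinf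
      have hunit : IsUnit (R.r ⟨γ, hγ⟩) := (Group.isUnit (⟨γ, hγ⟩ : Γ)).map R.r
      obtain ⟨σ, hσ, l, hl, hle⟩ := h k S _ hs hk hunit
        (fun σ hσ l hl => R.comp' _ σ hσ l hl) (by
          intro N hN hnl
          rw [← map_pow] at hnl
          exact hinf N hN (congrArg Subtype.val (R.unipotent _ hnl)))
      exact ⟨l, R.eig σ hσ ⟨γ, hγ⟩ l hl, hle⟩
  · intro N₀ e₀ s n b hb
    obtain ⟨E, hE, h⟩ := lev N₀ e₀ n s b hb
    refine ⟨E, fun G _ M ρ => ⟨?_, ?_⟩⟩
    · intro _ hρ
      obtain ⟨δ, hδ, heps⟩ := eps_of E hE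
      refine ⟨_, nhd ρ hρ δ hδ, ?_⟩
      rintro Γ ⟨htf, k, _, _, S, R, hs, hk⟩ g u hu hΓ
      refine final_step' R htf δ hδ g u hu hΓ fun hnil => ?_
      have hunit : IsUnit (R.r ⟨g * u * g⁻¹, hΓ⟩) :=
        (Group.isUnit (⟨g * u * g⁻¹, hΓ⟩ : Γ)).map R.r
      obtain ⟨σ, hσ, l, hl, hle⟩ := h k S _ hs (hk ⟨g * u * g⁻¹, hΓ⟩) hunit
        (fun σ hσ l hl => R.comp' _ σ hσ l hl) hnil
      refine ⟨σ, hσ, l, hl, heps 1 1 l one_pos le_rfl ?_⟩
      rw [pow_one, mul_one]
      exact hle
    · intro Γ k _ _ S R hs γ hlev hinf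
      have hunit : IsUnit (R.r γ) := (Group.isUnit γ).map R.r
      obtain ⟨σ, hσ, l, hl, hle⟩ := h k S _ hs hlev hunit
        (fun σ hσ l hl => R.comp' _ σ hσ l hl) (by
          intro N hN hnl
          rw [← map_pow] at hnl
          exact hinf N hN (R.unipotent _ hnl))
      exact ⟨l, R.eig σ hσ γ l hl, hle⟩

end Pool.Agent.Results.MP_162bbe_gt.ManySmallPrimes
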