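import Pool.Agent.NH73.RO.DivFam
import Pool.Agent.NH73.RO.Ext
import Pool.Agent.R826.FrobJ

/-!
# Margulis' injectivity radius conjecture: one unit and one place for each field

`Pool.Agent.H225R3.MargDefs` contains the definitions: `Realization ρ Γ k n S` (a homomorphism `r`
from `Γ` to the `n` by `n` matrices over the ring of integers of the number field `k`, bounded under
all embeddings outside `S`, such that for `σ` in `S` the eigenvalues of `σ (r γ)` are eigenvalues of
`ρ γ`, and such that only `1` is mapped to a unipotent matrix) and `UniformlyDiscrete` (there is an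
identity neighbourhood `U` such that `g U g⁻¹` meets every group of the family in the identity only).

`Pool.Agent.NH73.RO.Fin` contains the definitions `IsRec k u`: `u` is a unit of the ring of algebraic
integers, in the algebraic closure of `k`, with `u + u⁻¹ ∈ k`; and `PowersOf A u`, for a matrix `A` over
the ring of integers of `k`: all eigenvalues of some power `A ^ N`, `N ≥ 1`, are powers of `u`. (For a
semisimple `A` this implies that the identity component of the Zariski closure of the group
generated by `A` is a torus over `k` of dimension at most one, if `IsRec k u`.)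

The theorem says that, if the degree of `k` is large, the elements of all arithmetic groups over `k`
which have small eigenvalues have eigenvalues which are, up to roots of unity, rational powers of one
unit `u` (which only depends on `k`; how large the degree has to be depends on the size of the matrices).
It is the unit for which Margulis' conjecture is the problem of Lehmer. In particular all embeddings
(or sets of embeddings) of `k` but one do not matter: the groups which are noncompact at them are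
uniformly discrete. And so are the groups without elements of rank one, for example the groups that
come from division algebras of odd degree (over a quadratic extension `L` of `k`, with an involution
of the second kind). There is no condition on the field `k` and its primes.

Method. Suppose that the eigenvalues of `A = r γ` and `A' = r' γ'` are small. Let `x`, `y` be eigenvalues
of `A`, `A'`, in a field of degree at most `n ^ 2 [k : ℚ]`. All but few conjugates of `x`, `y` are on the
unit circle. If `x`, `y` are multiplicatively independent then the inequality in two variables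
(`Pool.Agent.NH69.MI`, for units of which at one embedding only the first and at another one only the
second is off the unit circle; `Pool.Agent.NH73.RO.C4`-`C9`: for all multiplicatively independent
units) shows that a conjugate is large. So all eigenvalues of all such matrices over `k` are
multiplicatively dependent; the automorphisms of the algebraic closure over `k` then map an eigenvalue
`x` which is not a root of unity to `x` or `x⁻¹`, up to roots of unity (the exponent is `± 1` as it has
finite order). Matrices of different sizes are compared by adding identity blocks.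
-/

set_option autoImplicit false

namespace Pool.Agent.Results.MP_162bbe_gt.OneDimensionalTori

open NumberField Module Pool.Agent.H225R3.Marg Pool.Agent.R826.Frob Pool.Agent.NH73.RO

universe v

/-- Let a unit `u k` and a set `X k` of embeddings be given for each number field `k`. The torsion-free
subgroups `Γ` of `G` which have a realization by matrices of size `n` over a number field `k` with set
of noncompact embeddings `S`, such that `k` has degree at most `N`; or `|S| ≤ [k : ℚ] ^ (1 / 2 - ε)`
and, if `S` contains `X k`, for no `γ ≠ 1` all eigenvalues of some power of `r γ` are powers of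
`u k`. -/
def Family (ε : ℝ) (N n : ℕ) (u : ∀ (k : Type) [Field k] [NumberField k], AlgebraicClosure k)
    (X : ∀ (k : Type) [Field k] [NumberField k], Finset (k →+* ℂ))
    {G : Type*} [Group G] {M : ℕ} (ρ : G →* Matrix (Fin M) (Fin M) ℂ) : Set (Subgroup G) :=
  {Γ | (∀ γ ∈ Γ, ∀ N : ℕ, 0 < N → γ ^ N = 1 → γ = 1) ∧
    ∃ (k : Type) (_ : Field k) (_ : NumberField k) (S : Finset (k →+* ℂ))
      (R : Realization ρ Γ k n S),
      finrank ℚ k ≤ N ∨ ((S.card : ℝ) ≤ (finrank ℚ k : ℝ) ^ (1 / 2 - ε) ∧
        (X k ⊆ S → ∀ γ : Γ, γ ≠ 1 → ¬ PowersOf (R.r γ) (u k)))}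

/-- The realization comes from a division algebra of odd degree: there is a division algebra `D` of odd
dimension over a field `L` contained in its center, `L` contains `k`, and `r` is the composite of a
homomorphism `δ` from `Γ` to the multiplicative monoid of `D` and of a representation `φ` of `D` by
matrices over `k`; only `1` is mapped to an element of `L` by `δ`. -/
def OddDivision {G : Type*} [Group G] {M : ℕ} {ρ : G →* Matrix (Fin M) (Fin M) ℂ}
    {Γ : Subgroup G} {k : Type} [Field k] [NumberField k] {n : ℕ} {S : Finset (k →+* ℂ)}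
    (R : Realization ρ Γ k n S) : Prop :=
  ∃ (L D : Type) (_ : Field L) (_ : DivisionRing D) (_ : Algebra k L) (_ : Algebra L D)
    (_ : Algebra k D) (_ : IsScalarTower k L D) (φ : D →ₐ[k] Matrix (Fin n) (Fin n) k) (δ : Γ →* D),
    Odd (finrank L D) ∧ (∀ γ, φ (δ γ) = (R.r γ).map (algebraMap (𝓞 k) k)) ∧
    ∀ γ, δ γ ∈ Set.range (algebraMap L D) → γ = 1

/-- The torsion-free subgroups `Γ` of `G` which have a realization by matrices of size `n` over a
number field `k` with set of noncompact embeddings `S`, `|S| ≤ s`, which comes from a division algebra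
of odd degree. -/
def FamilyDiv (s n : ℕ) {G : Type*} [Group G] {M : ℕ}
    (ρ : G →* Matrix (Fin M) (Fin M) ℂ) : Set (Subgroup G) :=
  {Γ | (∀ γ ∈ Γ, ∀ N : ℕ, 0 < N → γ ^ N = 1 → γ = 1) ∧
    ∃ (k : Type) (_ : Field k) (_ : NumberField k) (S : Finset (k →+* ℂ))
      (R : Realization ρ Γ k n S), S.card ≤ s ∧ OddDivision R}

/-- an eigenvalue of the inverse -/
lemma isRoot_inv {n : ℕ} (A B : Matrix (Fin n) (Fin n) ℂ) (hAB : A * B = 1) (l : ℂ)
    (h : A.charpoly.IsRoot l) : l ≠ 0 ∧ B.charpoly.IsRoot l⁻¹ := by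
  have h1 : (Module.End.HasEigenvalue (Matrix.toLin' A) l) := by
    rw [← Matrix.charpoly_toLin'] at h
    exact (Module.End.hasEigenvalue_iff_isRoot_charpoly _ _).2 h
  obtain ⟨v, hv⟩ := h1.exists_hasEigenvector
  have hv1 := hv.apply_eq_smul
  have hv0 := hv.2
  have hBA : B * A = 1 := mul_eq_one_comm.1 hAB
  have h2 : Matrix.toLin' B (Matrix.toLin' A v) = v := by
    rw [← Matrix.toLin'_mul_apply, hBA, Matrix.toLin'_one]
    rfl
  rw [hv1, map_smul] at h2
  have hl : l ≠ 0 := by
    rintro rfl
    rw [zero_smul] at h2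
    exact hv0 h2.symm
  have h3 : Matrix.toLin' B v = l⁻¹ • v := by
    rw [eq_inv_smul_iff₀ hl]
    exact h2
  have h4 : Module.End.HasEigenvalue (Matrix.toLin' B) l⁻¹ :=
    Module.End.hasEigenvalue_of_hasEigenvector
      ⟨Module.End.mem_eigenspace_iff.2 h3, hv0⟩
  refine ⟨hl, ?_⟩
  rw [← Matrix.charpoly_toLin']
  exact (Module.End.hasEigenvalue_iff_isRoot_charpoly _ _).1 h4

/-- outside `S` the eigenvalues are on the unit circle -/
lemma circ {G : Type*} [Group G] {M : ℕ} {ρ : G →* Matrix (Fin M) (Fin M) ℂ}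
    {Γ : Subgroup G} {k : Type} [Field k] [NumberField k] {n : ℕ} {S : Finset (k →+* ℂ)}
    (R : Realization ρ Γ k n S) (γ : Γ) (σ : k →+* ℂ) (hσ : σ ∉ S) (l : ℂ)
    (h : ((emb σ).mapMatrix (R.r γ)).charpoly.IsRoot l) : ‖l‖ = 1 := by
  have h1 := R.comp' γ σ hσ l h
  obtain ⟨hl, h2⟩ := isRoot_inv _ ((emb σ).mapMatrix (R.r γ⁻¹)) (by
    rw [← map_mul, ← map_mul, mul_inv_cancel, map_one, map_one]) l h
  have h3 := R.comp' γ⁻¹ σ hσ l⁻¹ h2
  rw [norm_inv, inv_le_one₀ (norm_pos_iff.2 hl)] at h3
  exact le_antisymm h1 h3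

/-- no element of a torsion-free group from a division algebra of odd degree has rank one -/
lemma not_rankOne {G : Type*} [Group G] {M : ℕ} {ρ : G →* Matrix (Fin M) (Fin M) ℂ}
    {Γ : Subgroup G} {k : Type} [Field k] [NumberField k] {n : ℕ} {S : Finset (k →+* ℂ)}
    (R : Realization ρ Γ k n S) (hR : OddDivision R)
    (htf : ∀ γ ∈ Γ, ∀ N : ℕ, 0 < N → γ ^ N = 1 → γ = 1) (γ : Γ) (hγ : γ ≠ 1) :
    ¬ RankOne (R.r γ) := by
  intro hro
  obtain ⟨L, D, _, _, _, _, _, _, φ, δ, hodd, hφ, hδ⟩ := hR
  have hn : 0 < n := by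
    rcases Nat.eq_zero_or_pos n with h | h
    · subst h
      exact absurd (R.unipotent γ ⟨1, by rw [pow_one]; exact Subsingleton.elim _ _⟩) hγ
    · exact h
  obtain ⟨N, hN, hmem⟩ := mem_of_rankOne hn (R.r γ) hro L D φ hodd (δ γ) (hφ γ)
  rw [← map_pow] at hmem
  have h1 := hδ _ hmem
  exact hγ (Subtype.ext (htf γ γ.2 N hN (by
    have h2 := congrArg Subtype.val h1
    simpa using h2)))

/-- **Main theorem.** Let `0 < ε < 1 / 2`. There is `κ > 0` and, for each number field `k`, there are one
unit `u k` with `u k + (u k)⁻¹ ∈ k` and one nonempty set `X k` of embeddings of `k` (depending only on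
`ε` and `k`) such that for each `n` there is a number `D₀` with the properties (1) and (2). Let `G` be
a group, `ρ` a finite dimensional complex representation of `G` (for instance the complexified adjoint
representation of a semisimple Lie group), and `Γ` a subgroup of `G` with a realization by matrices of
size `n` over a number field `k` of degree `d` with set of noncompact embeddings `S`.

(1) If `d ≥ D₀` and `|S| ≤ d ^ (1 / 2 - ε)`, then for each element `γ` of `Γ` of infinite order `ρ γ` has
an eigenvalue `l` with `log |l| > d ^ κ`, or `X k ⊆ S` and all eigenvalues of some power of `r γ` are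
powers of `u k`.

(2) For each `N` there is `E ≥ 1`, depending only on `ε`, `n` and `N`, such that if `d ≤ N` or
`|S| ≤ d ^ (1 / 2 - ε)`, then for each element `γ` of `Γ` of infinite order `ρ γ` has an eigenvalue `l`
with `|l| ^ E ≥ 2`, or `d > N`, `X k ⊆ S` and all eigenvalues of some power of `r γ` are powers of `u k`.
If `G` is a topological group and `ρ` is continuous, then the family `Family ε N n u X ρ` of
torsion-free subgroups is uniformly discrete. (For `|S| = 1` it contains all groups which are noncompact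
at another embedding than the only element of `X k`.)

(3) If `Γ` is torsion-free and its realization comes from a division algebra of odd degree, then for
no `γ ≠ 1` all eigenvalues of some power of `r γ` are powers of one unit `w` with `w + w⁻¹ ∈ k`; and
the family `FamilyDiv s n ρ` of all these groups, with `|S| ≤ s`, is uniformly discrete. -/
theorem result :
    (∀ ε : ℝ, 0 < ε → ε < 1 / 2 → ∃ κ : ℝ, 0 < κ ∧
      ∃ (u : ∀ (k : Type) [Field k] [NumberField k], AlgebraicClosure k)
      (X : ∀ (k : Type) [Field k] [NumberField k], Finset (k →+* ℂ)),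
      (∀ (k : Type) [Field k] [NumberField k], IsRec k (u k) ∧ (X k).Nonempty) ∧
      ∀ n : ℕ, ∃ D₀ : ℕ,
      (∀ (G : Type v) [Group G] (M : ℕ) (ρ : G →* Matrix (Fin M) (Fin M) ℂ) (Γ : Subgroup G)
        (k : Type) [Field k] [NumberField k] (S : Finset (k →+* ℂ)) (R : Realization ρ Γ k n S),
        D₀ ≤ finrank ℚ k → (S.card : ℝ) ≤ (finrank ℚ k : ℝ) ^ (1 / 2 - ε) →
        ∀ γ : Γ, (∀ N : ℕ, 0 < N → γ ^ N ≠ 1) →
        (∃ l : ℂ, IsEig (ρ γ) l ∧ (finrank ℚ k : ℝ) ^ κ < Real.log ‖l‖) ∨
          (X k ⊆ S ∧ PowersOf (R.r γ) (u k))) ∧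
      ∀ N : ℕ, ∃ E : ℕ, 0 < E ∧ ∀ (G : Type v) [Group G] (M : ℕ)
        (ρ : G →* Matrix (Fin M) (Fin M) ℂ),
        (∀ [TopologicalSpace G], Continuous ρ → UniformlyDiscrete (Family ε N n u X ρ)) ∧
        ∀ (Γ : Subgroup G) (k : Type) [Field k] [NumberField k] (S : Finset (k →+* ℂ))
          (R : Realization ρ Γ k n S),
          (finrank ℚ k ≤ N ∨ (S.card : ℝ) ≤ (finrank ℚ k : ℝ) ^ (1 / 2 - ε)) →
          ∀ γ : Γ, (∀ N : ℕ, 0 < N → γ ^ N ≠ 1) →
          (∃ l : ℂ, IsEig (ρ γ) l ∧ 2 ≤ ‖l‖ ^ E) ∨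
            (N < finrank ℚ k ∧ X k ⊆ S ∧ PowersOf (R.r γ) (u k))) ∧
    (∀ (G : Type v) [Group G] (M : ℕ) (ρ : G →* Matrix (Fin M) (Fin M) ℂ) (Γ : Subgroup G)
      (k : Type) [Field k] [NumberField k] (n : ℕ) (S : Finset (k →+* ℂ))
      (R : Realization ρ Γ k n S), OddDivision R →
      (∀ γ ∈ Γ, ∀ N : ℕ, 0 < N → γ ^ N = 1 → γ = 1) → ∀ γ : Γ, γ ≠ 1 →
      ∀ w : AlgebraicClosure k, IsRec k w → ¬ PowersOf (R.r γ) w) ∧
    ∀ (s n : ℕ) (G : Type v) [Group G] [TopologicalSpace G] (M : ℕ)
      (ρ : G →* Matrix (Fin M) (Fin M) ℂ), Continuous ρ → UniformlyDiscrete (FamilyDiv s n ρ) := by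
  have main : ∀ ε : ℝ, 0 < ε → ε < 1 / 2 → ∃ κ : ℝ, 0 < κ ∧
      ∃ (u : ∀ (k : Type) [Field k] [NumberField k], AlgebraicClosure k)
      (X : ∀ (k : Type) [Field k] [NumberField k], Finset (k →+* ℂ)),
      (∀ (k : Type) [Field k] [NumberField k], IsRec k (u k) ∧ (X k).Nonempty) ∧
      ∀ n : ℕ, ∃ D₀ : ℕ,
      (∀ (G : Type v) [Group G] (M : ℕ) (ρ : G →* Matrix (Fin M) (Fin M) ℂ) (Γ : Subgroup G)
        (k : Type) [Field k] [NumberField k] (S : Finset (k →+* ℂ)) (R : Realization ρ Γ k n S),
        D₀ ≤ finrank ℚ k → (S.card : ℝ) ≤ (finrank ℚ k : ℝ) ^ (1 / 2 - ε) →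
        ∀ γ : Γ, (∀ N : ℕ, 0 < N → γ ^ N ≠ 1) →
        (∃ l : ℂ, IsEig (ρ γ) l ∧ (finrank ℚ k : ℝ) ^ κ < Real.log ‖l‖) ∨
          (X k ⊆ S ∧ PowersOf (R.r γ) (u k))) ∧
      ∀ N : ℕ, ∃ E : ℕ, 0 < E ∧ ∀ (G : Type v) [Group G] (M : ℕ)
        (ρ : G →* Matrix (Fin M) (Fin M) ℂ),
        (∀ [TopologicalSpace G], Continuous ρ → UniformlyDiscrete (Family ε N n u X ρ)) ∧
        ∀ (Γ : Subgroup G) (k : Type) [Field k] [NumberField k] (S : Finset (k →+* ℂ))
          (R : Realization ρ Γ k n S),
          (finrank ℚ k ≤ N ∨ (S.card : ℝ) ≤ (finrank ℚ k : ℝ) ^ (1 / 2 - ε)) →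
          ∀ γ : Γ, (∀ N : ℕ, 0 < N → γ ^ N ≠ 1) →
          (∃ l : ℂ, IsEig (ρ γ) l ∧ 2 ≤ ‖l‖ ^ E) ∨
            (N < finrank ℚ k ∧ X k ⊆ S ∧ PowersOf (R.r γ) (u k)) := by
    intro ε hε hε1
    obtain ⟨κ, hκ, u, X, huX, h⟩ := growth_gap ε hε hε1
    refine ⟨κ, hκ, u, X, fun k _ _ => huX k, fun n => ?_⟩
    obtain ⟨D₀, h1, h2⟩ := h n
    refine ⟨D₀, ?_, fun N => ?_⟩
    · intro G _ M ρ Γ k _ _ S R hd hS γ hinf
      rcases h1 k hd S (R.r γ) ⟨(Group.isUnit γ).map R.r, fun σ hσ l hl => circ R _ σ hσ l hl, hS, by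
        intro N hN hnl
        rw [← map_pow] at hnl
        exact hinf N hN (R.unipotent _ hnl)⟩ with ⟨σ, hσ, l, hl, hle⟩ | h
      · exact Or.inl ⟨l, R.eig σ hσ γ l hl, hle⟩
      · exact Or.inr h
    · obtain ⟨E, hE, h3⟩ := h2 N
      refine ⟨E, hE, fun G _ M ρ => ⟨?_, ?_⟩⟩
      · intro _ hρ
        obtain ⟨δ, hδ, heps⟩ := eps_of E hE
        refine ⟨_, nhd ρ hρ δ hδ, ?_⟩
        rintro Γ ⟨htf, k, _, _, S, R, hk⟩ g x hx hΓ
        refine final_step' R htf δ hδ g x hx hΓ fun hnil => ?_
        have h4 := h3 k S (R.r ⟨g * x * g⁻¹, hΓ⟩)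
          (hk.imp_right fun h => h.1)
          ((Group.isUnit (⟨g * x * g⁻¹, hΓ⟩ : Γ)).map R.r)
          (fun σ hσ l hl => circ R _ σ hσ l hl) hnil
        obtain ⟨σ, hσ, l, hl, hle⟩ := h4.resolve_right (by
          rintro ⟨h5, h6, h7⟩
          rcases hk with h8 | h8
          · omega
          · exact h8.2 h6 _ (fun h9 => hnil 1 one_pos ⟨1, by
              rw [h9, map_one, one_pow, sub_self, pow_one]⟩) h7)
        refine ⟨σ, hσ, l, hl, heps 1 1 l one_pos le_rfl ?_⟩
        rw [pow_one, mul_one]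
        exact hle
      · intro Γ k _ _ S R hk γ hinf
        rcases h3 k S (R.r γ) hk ((Group.isUnit γ).map R.r)
          (fun σ hσ l hl => circ R _ σ hσ l hl) (by
            intro N hN hnl
            rw [← map_pow] at hnl
            exact hinf N hN (R.unipotent _ hnl)) with ⟨σ, hσ, l, hl, hle⟩ | h
        · exact Or.inl ⟨l, R.eig σ hσ γ l hl, hle⟩
        · exact Or.inr h
  refine ⟨main, ?_, ?_⟩
  · intro G _ M ρ Γ k _ _ n S R hR htf γ hγ w hw hpow
    exact not_rankOne R hR htf γ hγ ⟨w, hw, hpow⟩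
  · intro s n G _ _ M ρ hρ
    obtain ⟨κ, hκ, u, X, huX, h⟩ := main (1 / 4) (by norm_num) (by norm_num)
    obtain ⟨D₀, -, h2⟩ := h n
    obtain ⟨E, hE, h3⟩ := h2 (s ^ 4)
    obtain ⟨U, hU, h4⟩ := (h3 G M ρ).1 hρ
    refine ⟨U, hU, fun Γ hΓ => h4 Γ ?_⟩
    obtain ⟨htf, k, _, _, S, R, hs, hR⟩ := hΓ
    refine ⟨htf, k, inferInstance, inferInstance, S, R, ?_⟩
    by_cases hd : finrank ℚ k ≤ s ^ 4
    · exact Or.inl hd
    · right
      refine ⟨?_, fun _ γ hγ hpow => not_rankOne R hR htf γ hγ ⟨u k, (huX k).1, hpow⟩⟩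
      have h1 : (s : ℝ) ≤ (finrank ℚ k : ℝ) ^ (1 / 2 - 1 / 4 : ℝ) := by
        have h2 : s ^ 4 ≤ finrank ℚ k := by omega
        have h3 : ((s ^ 4 : ℕ) : ℝ) ≤ finrank ℚ k := by exact_mod_cast h2
        calc (s : ℝ) = (((s ^ 4 : ℕ) : ℝ)) ^ (1 / 2 - 1 / 4 : ℝ) := by
              rw [Nat.cast_pow, ← Real.rpow_natCast, ← Real.rpow_mul (Nat.cast_nonneg _)]
              norm_num
          _ ≤ _ := Real.rpow_le_rpow (by positivity) h3 (by norm_num)
      exact (Nat.cast_le.2 hs).trans h1

end Pool.Agent.Results.MP_162bbe_gt.OneDimensionalTori
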