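import Pool.Agent.NH69.MI.Fin
import Pool.Agent.R826.FrobJ

/-!
# Margulis' injectivity radius conjecture over fields with two conjugates of small compositum

`Pool.Agent.H225R3.MargDefs` contains the definitions: `Realization ρ Γ k n S` (a homomorphism `r`
from `Γ` to the `n` by `n` matrices over the ring of integers of the number field `k`, bounded under
all embeddings outside `S`, such that for `σ` in `S` the eigenvalues of `σ (r γ)` are eigenvalues of
`ρ γ`, and such that only `1` is mapped to a unipotent matrix) and `UniformlyDiscrete` (there is an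
identity neighbourhood `U` such that `g U g⁻¹` meets every group of the family in the identity only).

`Pool.Agent.NH69.MI.Fin` contains the two definitions used here. `compDeg σ σ'` is the degree over
`ℚ` of the compositum of `σ(k)` and `σ'(k)` in `ℂ`; in general it can be as large as `d (d - 1)`, where
`d = [k : ℚ]`. `SmallComposita ε k S`: for every nonempty subset `T` of the set `S` of noncompact
embeddings there are `σ` in `T` and `σ'` not in `T` such that `|S| ^ 2 compDeg σ σ' ≤ d ^ (2 - ε)`.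
For bounded `|S|` this means that there are two conjugates of `k`, one belonging to `T` and one not,
whose compositum has degree at most `d ^ (2 - ε)`, up to a constant.

The theorem is about arithmetic groups over such fields `k`, of any degree and with any number of
noncompact embeddings; there is no condition on the primes of `k`.

Method. Suppose that the eigenvalues of `A = r γ` are small. Let `σ A` have an eigenvalue off the unit
circle, and `σ' A` have none (`T` is the set of the `σ` with such an eigenvalue). Then over the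
compositum `K` of `σ(k)` and `σ'(k)` there are two eigenvalues `x`, `y` (of two conjugates of `A`), such
that under one embedding only `x` and under another one only `y` is off the unit circle; and all but
few conjugates of `x` and `y` are on the unit circle. For such a pair of units, generating a field of
degree `D`, with at most `D ^ (1 / 2 - δ)` conjugates off the unit circle, one proves by an
auxiliary polynomial in two variables that there is a conjugate of size larger than
`exp (D ^ κ)`. If `x`, `y` satisfy no relation of small degree, the zero estimate is elementary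
(linear algebra and the Chinese remainder theorem for the points `(x ^ p, y ^ p)`). If there is a
relation `P(x, y) = 0` of small degree, the auxiliary polynomial is constructed on the curve
`P = 0`, and one shows first that all but few of its translates by torsion points of prime order
have common components with it, and then that it contains a torsion translate of `(x, y)` of
large order together with its conjugates; then it contains a coset of a subgroup of dimension one,
and a monomial in `x`, `y` has small degree, which is impossible.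
-/

set_option autoImplicit false

namespace Pool.Agent.Results.MP_162bbe_gt.SmallComposita

open NumberField Module Pool.Agent.H225R3.Marg Pool.Agent.R826.Frob Pool.Agent.NH69.MI

universe u

/-- The torsion-free subgroups `Γ` of `G` which have a realization by matrices of size `n` over a
number field `k` with set of noncompact embeddings `S`, such that `k` has degree at most `N` or
`SmallComposita ε k S` holds. -/
def Family (ε : ℝ) (N n : ℕ) {G : Type*} [Group G] {M : ℕ}
    (ρ : G →* Matrix (Fin M) (Fin M) ℂ) : Set (Subgroup G) :=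
  {Γ | (∀ γ ∈ Γ, ∀ N : ℕ, 0 < N → γ ^ N = 1 → γ = 1) ∧
    ∃ (k : Type) (_ : Field k) (_ : NumberField k) (S : Finset (k →+* ℂ))
      (_ : Realization ρ Γ k n S), finrank ℚ k ≤ N ∨ SmallComposita ε k S}

/-- The torsion-free subgroups `Γ` of `G` which have a realization by matrices of size `n` over a
number field `k` with set of noncompact embeddings `S`, such that `|S| ≤ s` and `k` has more than `|S|`
automorphisms. -/
def FamilyAut (s n : ℕ) {G : Type*} [Group G] {M : ℕ}
    (ρ : G →* Matrix (Fin M) (Fin M) ℂ) : Set (Subgroup G) :=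
  {Γ | (∀ γ ∈ Γ, ∀ N : ℕ, 0 < N → γ ^ N = 1 → γ = 1) ∧
    ∃ (k : Type) (_ : Field k) (_ : NumberField k) (S : Finset (k →+* ℂ))
      (_ : Realization ρ Γ k n S), S.card ≤ s ∧ S.card < Nat.card (RingAut k)}

/-- The torsion-free subgroups `Γ` of `G` which have a realization by matrices of size `n` over a
number field `k` with set of noncompact embeddings `S`, such that `|S| ≤ s` and `k` has a subfield `F`
(an extension `k / F` of number fields) with `[k : F] ≤ [k : ℚ] ^ (1 - ε)`, i.e.
`[F : ℚ] ≥ [k : ℚ] ^ ε`, such that every embedding of `F` is the restriction of an embedding of `k`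
outside `S` (for instance `[k : F] > |S|`). -/
def FamilySub (ε : ℝ) (s n : ℕ) {G : Type*} [Group G] {M : ℕ}
    (ρ : G →* Matrix (Fin M) (Fin M) ℂ) : Set (Subgroup G) :=
  {Γ | (∀ γ ∈ Γ, ∀ N : ℕ, 0 < N → γ ^ N = 1 → γ = 1) ∧
    ∃ (k : Type) (_ : Field k) (_ : NumberField k) (S : Finset (k →+* ℂ))
      (_ : Realization ρ Γ k n S) (F : Type) (_ : Field F) (_ : NumberField F) (_ : Algebra F k),
      S.card ≤ s ∧ (finrank F k : ℝ) ≤ (finrank ℚ k : ℝ) ^ (1 - ε) ∧
      ∀ τ : F →+* ℂ, ∃ σ : k →+* ℂ, σ ∉ S ∧ σ.comp (algebraMap F k) = τ}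

/-- an eigenvalue of the inverse -/
lemma isRoot_inv {n : ℕ} (A B : Matrix (Fin n) (Fin n) ℂ) (hAB : A * B = 1) (l : ℂ)
    (h : A.charpoly.IsRoot l) : l ≠ 0 ∧ B.charpoly.IsRoot l⁻¹ := by
  have h1 : (Module.End.HasEigenvalue (Matrix.toLin' A) l) := by
    rw [← Matrix.charpoly_toLin'] at h
    exact (Module.End.hasEigenvalue_iff_isRoot_charpoly _ _).2 h
  obtain ⟨v, hv⟩ := h1.exists_hasEigenvector
  have hv1 := hv.apply_eq_smul
  have hv0 := hv.2
  have hBA : B * A = 1 := mul_eq_one_comm.1 hAB
  have h2 : Matrix.toLin' B (Matrix.toLin' A v) = v := by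
    rw [← Matrix.toLin'_mul_apply, hBA, Matrix.toLin'_one]
    rfl
  rw [hv1, map_smul] at h2
  have hl : l ≠ 0 := by
    rintro rfl
    rw [zero_smul] at h2
    exact hv0 h2.symm
  have h3 : Matrix.toLin' B v = l⁻¹ • v := by
    rw [eq_inv_smul_iff₀ hl]
    exact h2
  have h4 : Module.End.HasEigenvalue (Matrix.toLin' B) l⁻¹ :=
    Module.End.hasEigenvalue_of_hasEigenvector
      ⟨Module.End.mem_eigenspace_iff.2 h3, hv0⟩
  refine ⟨hl, ?_⟩
  rw [← Matrix.charpoly_toLin']
  exact (Module.End.hasEigenvalue_iff_isRoot_charpoly _ _).1 h4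

/-- outside `S` the eigenvalues are on the unit circle -/
lemma circ {G : Type*} [Group G] {M : ℕ} {ρ : G →* Matrix (Fin M) (Fin M) ℂ}
    {Γ : Subgroup G} {k : Type} [Field k] [NumberField k] {n : ℕ} {S : Finset (k →+* ℂ)}
    (R : Realization ρ Γ k n S) (γ : Γ) (σ : k →+* ℂ) (hσ : σ ∉ S) (l : ℂ)
    (h : ((emb σ).mapMatrix (R.r γ)).charpoly.IsRoot l) : ‖l‖ = 1 := by
  have h1 := R.comp' γ σ hσ l h
  obtain ⟨hl, h2⟩ := isRoot_inv _ ((emb σ).mapMatrix (R.r γ⁻¹)) (by
    rw [← map_mul, ← map_mul, mul_inv_cancel, map_one, map_one]) l h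
  have h3 := R.comp' γ⁻¹ σ hσ l⁻¹ h2
  rw [norm_inv, inv_le_one₀ (norm_pos_iff.2 hl)] at h3
  exact le_antisymm h1 h3

/-- more automorphisms than noncompact embeddings -/
lemma small_aut (k : Type) [Field k] [NumberField k] (S : Finset (k →+* ℂ)) (ε : ℝ)
    (h : S.card < Nat.card (RingAut k)) (h2 : (S.card : ℝ) ^ 2 ≤ (finrank ℚ k : ℝ) ^ (1 - ε)) :
    SmallComposita ε k S := by
  classical
  intro T hT hTne
  obtain ⟨σ, hσ⟩ := hTne
  have hd : (0 : ℝ) < finrank ℚ k := by
    have : 0 < finrank ℚ k := finrank_pos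
    exact_mod_cast this
  obtain ⟨τ, hτ⟩ : ∃ τ : RingAut k, σ.comp (τ : k →+* k) ∉ T := by
    by_contra hcon
    push Not at hcon
    let f : RingAut k → T := fun τ => ⟨σ.comp (τ : k →+* k), hcon τ⟩
    have hf : Function.Injective f := by
      intro a b hab
      have h3 : σ.comp (a : k →+* k) = σ.comp (b : k →+* k) := congrArg Subtype.val hab
      ext x
      exact σ.injective (RingHom.congr_fun h3 x)
    have h3 := Nat.card_le_card_of_injective f hf
    rw [Nat.card_eq_fintype_card (α := T), Fintype.card_coe] at h3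
    have h4 := Finset.card_le_card hT
    omega
  refine ⟨σ, hσ, σ.comp (τ : k →+* k), hτ, ?_⟩
  have h1 : compDeg σ (σ.comp (τ : k →+* k)) ≤ finrank ℚ k :=
    compDeg_le (RingHom.id k) (τ : k →+* k) σ
  have h3 : (compDeg σ (σ.comp (τ : k →+* k)) : ℝ) ≤ finrank ℚ k := by exact_mod_cast h1
  calc (S.card : ℝ) ^ 2 * compDeg σ (σ.comp (τ : k →+* k))
      ≤ (finrank ℚ k : ℝ) ^ (1 - ε) * finrank ℚ k := by gcongr
    _ = (finrank ℚ k : ℝ) ^ (2 - ε) := by
        have e1 : (2 - ε : ℝ) = (1 - ε) + 1 := by ring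
        rw [e1, Real.rpow_add hd, Real.rpow_one]

/-- a subfield -/
lemma small_sub (F k : Type) [Field F] [NumberField F] [Field k] [NumberField k] [Algebra F k]
    (S : Finset (k →+* ℂ)) (ε : ℝ)
    (h : ∀ τ : F →+* ℂ, ∃ σ : k →+* ℂ, σ ∉ S ∧ σ.comp (algebraMap F k) = τ)
    (h2 : (S.card : ℝ) ^ 2 * finrank F k ≤ (finrank ℚ k : ℝ) ^ (1 - ε)) :
    SmallComposita ε k S := by
  intro T hT hTne
  obtain ⟨K, _, _, i, j, ρ, h3, h4, h5⟩ := t_sub F k T hTne (fun τ => by
    obtain ⟨σ, h6, h7⟩ := h τ
    exact ⟨σ, fun h8 => h6 (hT h8), h7⟩)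
  have hd : (0 : ℝ) < finrank ℚ k := by
    have : 0 < finrank ℚ k := finrank_pos
    exact_mod_cast this
  refine ⟨ρ.comp i, h3, ρ.comp j, h4, ?_⟩
  have h6 : (compDeg (ρ.comp i) (ρ.comp j) : ℝ) ≤ finrank F k * finrank ℚ k := by
    exact_mod_cast (compDeg_le i j ρ).trans h5
  calc (S.card : ℝ) ^ 2 * compDeg (ρ.comp i) (ρ.comp j)
      ≤ (S.card : ℝ) ^ 2 * (finrank F k * finrank ℚ k) := by gcongr
    _ = (S.card : ℝ) ^ 2 * finrank F k * finrank ℚ k := by ring
    _ ≤ (finrank ℚ k : ℝ) ^ (1 - ε) * finrank ℚ k := by gcongr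
    _ = (finrank ℚ k : ℝ) ^ (2 - ε) := by
        have e1 : (2 - ε : ℝ) = (1 - ε) + 1 := by ring
        rw [e1, Real.rpow_add hd, Real.rpow_one]

/-- subfamilies -/
lemma ud_mono {G : Type*} [Group G] [TopologicalSpace G] {A B : Set (Subgroup G)} (h : A ⊆ B)
    (hB : UniformlyDiscrete B) : UniformlyDiscrete A := by
  obtain ⟨U, hU, h1⟩ := hB
  exact ⟨U, hU, fun Γ hΓ => h1 Γ (h hΓ)⟩

lemma ud_family (ε : ℝ) (hε : 0 < ε) (N n : ℕ) {G : Type u} [Group G] [TopologicalSpace G]
    {M : ℕ} (ρ : G →* Matrix (Fin M) (Fin M) ℂ) (hρ : Continuous ρ) :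
    UniformlyDiscrete (Family ε N n ρ) := by
  obtain ⟨E, hE, h⟩ := gap ε hε N n
  obtain ⟨δ, hδ, heps⟩ := eps_of E hE
  refine ⟨_, nhd ρ hρ δ hδ, ?_⟩
  rintro Γ ⟨htf, k, _, _, S, R, hk⟩ g u hu hΓ
  refine final_step' R htf δ hδ g u hu hΓ fun hnil => ?_
  have hunit : IsUnit (R.r ⟨g * u * g⁻¹, hΓ⟩) :=
    (Group.isUnit (⟨g * u * g⁻¹, hΓ⟩ : Γ)).map R.r
  obtain ⟨σ, hσ, l, hl, hle⟩ := h k S _ hk hunit (fun σ hσ l hl => circ R _ σ hσ l hl) hnil
  refine ⟨σ, hσ, l, hl, heps 1 1 l one_pos le_rfl ?_⟩
  rw [pow_one, mul_one]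
  exact hle

/-- Let `G` be a group and `ρ` a finite dimensional complex representation of `G`, continuous if `G`
is a topological group (for instance the complexified adjoint representation of a semisimple Lie
group). Let `k` be a number field of degree `d`.

(1) Let `ε > 0`, `N`, `n` be given. The family `Family ε N n ρ` of torsion-free subgroups of `G` is
uniformly discrete. Moreover there is a number `E`, which only depends on `ε`, `N` and `n`, such that
if a subgroup `Γ` of `G` has a realization by matrices of size `n` over `k` with set of noncompact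
embeddings `S`, and `d ≤ N` or `SmallComposita ε k S`, then each element `γ` of `Γ` of infinite order
has an eigenvalue `l` (of `ρ γ`) with `|l| ^ E ≥ 2`.

(2) For `ε > 0` there is `κ > 0`, and for `n` a number `D₀`, such that if `Γ` has a realization by
matrices of size `n` over `k` with set of noncompact embeddings `S`, `d ≥ D₀` and `SmallComposita ε k S`,
then each element `γ` of `Γ` of infinite order has an eigenvalue `l` with `log |l| > d ^ κ`.

(3) The family of the torsion-free subgroups with a realization of size `n` over a field `k` with at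
most `s` noncompact embeddings and with more automorphisms than noncompact embeddings is uniformly
discrete.

(4) The family of the torsion-free subgroups with a realization of size `n` over a field `k` with at
most `s` noncompact embeddings, such that `k` has a subfield `F` with `[F : ℚ] ≥ d ^ ε` and every
embedding of `F` is the restriction of an embedding of `k` outside `S` (for instance `[k : F] > s`), is
uniformly discrete. -/
theorem result :
    (∀ (ε : ℝ) (N n : ℕ), 0 < ε → ∃ E : ℕ, ∀ (G : Type u) [Group G] (M : ℕ)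
      (ρ : G →* Matrix (Fin M) (Fin M) ℂ),
      (∀ [TopologicalSpace G], Continuous ρ → UniformlyDiscrete (Family ε N n ρ)) ∧
      ∀ (Γ : Subgroup G) (k : Type) [Field k] [NumberField k] (S : Finset (k →+* ℂ)),
        Realization ρ Γ k n S → (finrank ℚ k ≤ N ∨ SmallComposita ε k S) →
        ∀ γ ∈ Γ, (∀ N : ℕ, 0 < N → γ ^ N ≠ 1) → ∃ l : ℂ, IsEig (ρ γ) l ∧ 2 ≤ ‖l‖ ^ E) ∧
    (∀ ε : ℝ, 0 < ε → ∃ κ : ℝ, 0 < κ ∧ ∀ n : ℕ, ∃ D₀ : ℕ, ∀ (G : Type u) [Group G] (M : ℕ)
      (ρ : G →* Matrix (Fin M) (Fin M) ℂ) (Γ : Subgroup G) (k : Type) [Field k] [NumberField k]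
      (S : Finset (k →+* ℂ)), Realization ρ Γ k n S → SmallComposita ε k S →
      D₀ ≤ finrank ℚ k → ∀ γ ∈ Γ, (∀ N : ℕ, 0 < N → γ ^ N ≠ 1) →
      ∃ l : ℂ, IsEig (ρ γ) l ∧ (finrank ℚ k : ℝ) ^ κ < Real.log ‖l‖) ∧
    (∀ (s n : ℕ) (G : Type u) [Group G] [TopologicalSpace G] (M : ℕ)
      (ρ : G →* Matrix (Fin M) (Fin M) ℂ), Continuous ρ →
      UniformlyDiscrete (FamilyAut s n ρ)) ∧
    ∀ (ε : ℝ) (s n : ℕ), 0 < ε → ∀ (G : Type u) [Group G] [TopologicalSpace G] (M : ℕ)
      (ρ : G →* Matrix (Fin M) (Fin M) ℂ), Continuous ρ →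
      UniformlyDiscrete (FamilySub ε s n ρ) := by
  refine ⟨?_, ?_, ?_, ?_⟩
  · intro ε N n hε
    obtain ⟨E, hE, h⟩ := gap ε hε N n
    refine ⟨E, fun G _ M ρ => ⟨?_, ?_⟩⟩
    · intro _ hρ
      exact ud_family ε hε N n ρ hρ
    · intro Γ k _ _ S R hk γ hγ hinf
      have hunit : IsUnit (R.r ⟨γ, hγ⟩) := (Group.isUnit (⟨γ, hγ⟩ : Γ)).map R.r
      obtain ⟨σ, hσ, l, hl, hle⟩ := h k S _ hk hunit (fun σ hσ l hl => circ R _ σ hσ l hl) (by
          intro N hN hnl
          rw [← map_pow] at hnl
          exact hinf N hN (congrArg Subtype.val (R.unipotent _ hnl)))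
      exact ⟨l, R.eig σ hσ ⟨γ, hγ⟩ l hl, hle⟩
  · intro ε hε
    obtain ⟨κ, hκ, h⟩ := growth ε hε
    refine ⟨κ, hκ, fun n => ?_⟩
    obtain ⟨D₀, hD₀⟩ := h n
    refine ⟨D₀, ?_⟩
    intro G _ M ρ Γ k _ _ S R hsm hd γ hγ hinf
    have hunit : IsUnit (R.r ⟨γ, hγ⟩) := (Group.isUnit (⟨γ, hγ⟩ : Γ)).map R.r
    obtain ⟨σ, hσ, l, hl, hle⟩ := hD₀ k S _ hd hsm hunit
      (fun σ hσ l hl => circ R _ σ hσ l hl) (by
        intro N hN hnl
        rw [← map_pow] at hnl
        exact hinf N hN (congrArg Subtype.val (R.unipotent _ hnl)))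
    exact ⟨l, R.eig σ hσ ⟨γ, hγ⟩ l hl, hle⟩
  · intro s n G _ _ M ρ hρ
    refine ud_mono ?_ (ud_family (1 / 2) (by norm_num) (s ^ 4) n ρ hρ)
    rintro Γ ⟨htf, k, _, _, S, R, hs, haut⟩
    refine ⟨htf, k, inferInstance, inferInstance, S, R, ?_⟩
    by_cases hd : finrank ℚ k ≤ s ^ 4
    · exact Or.inl hd
    · refine Or.inr (small_aut k S _ haut ?_)
      have h1 : ((s : ℝ) ^ 2) ^ 2 ≤ finrank ℚ k := by
        have : s ^ 4 ≤ finrank ℚ k := by omega
        have h2 : ((s ^ 4 : ℕ) : ℝ) ≤ finrank ℚ k := by exact_mod_cast this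
        calc ((s : ℝ) ^ 2) ^ 2 = ((s ^ 4 : ℕ) : ℝ) := by push_cast; ring
          _ ≤ _ := h2
      have h2 : (S.card : ℝ) ^ 2 ≤ (s : ℝ) ^ 2 := by
        gcongr
      refine h2.trans ?_
      have h3 : (1 - 1 / 2 : ℝ) = 1 / 2 := by norm_num
      rw [h3, ← Real.sqrt_eq_rpow]
      exact Real.le_sqrt_of_sq_le h1
  · intro ε s n hε G _ _ M ρ hρ
    refine ud_mono ?_ (ud_family (ε / 2) (by positivity) ⌈(s : ℝ) ^ (4 / ε)⌉₊ n ρ hρ)
    rintro Γ ⟨htf, k, _, _, S, R, F, _, _, _, hs, hF, hfib⟩
    refine ⟨htf, k, inferInstance, inferInstance, S, R, ?_⟩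
    by_cases hd : finrank ℚ k ≤ ⌈(s : ℝ) ^ (4 / ε)⌉₊
    · exact Or.inl hd
    · refine Or.inr (small_sub F k S _ hfib ?_)
      have hdpos : (0 : ℝ) < finrank ℚ k := by
        have : 0 < finrank ℚ k := finrank_pos
        exact_mod_cast this
      have h1 : (s : ℝ) ^ (4 / ε) ≤ finrank ℚ k := by
        have : ⌈(s : ℝ) ^ (4 / ε)⌉₊ ≤ finrank ℚ k := by omega
        exact (Nat.ceil_le.1 this)
      have h2 : (s : ℝ) ^ 2 ≤ (finrank ℚ k : ℝ) ^ (ε / 2) := by
        calc (s : ℝ) ^ 2 = ((s : ℝ) ^ (4 / ε)) ^ (ε / 2) := by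
              rw [← Real.rpow_mul (Nat.cast_nonneg _), ← Real.rpow_natCast]
              congr 1
              push_cast
              field_simp
              ring
          _ ≤ _ := Real.rpow_le_rpow (by positivity) h1 (by positivity)
      have h3 : (S.card : ℝ) ^ 2 ≤ (s : ℝ) ^ 2 := by
        gcongr
      calc (S.card : ℝ) ^ 2 * finrank F k
          ≤ (finrank ℚ k : ℝ) ^ (ε / 2) * (finrank ℚ k : ℝ) ^ (1 - ε) := by
            have h4 := h3.trans h2
            gcongr
        _ = (finrank ℚ k : ℝ) ^ (1 - ε / 2) := by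
            rw [← Real.rpow_add hdpos]
            congr 1
            ring

end Pool.Agent.Results.MP_162bbe_gt.SmallComposita
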